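import Pool.Agent.L7h31.KN.Main
import Pool.Agent.L7h7.KN.Mw
import Pool.Agent.L7h70.KN.Parts
import Pool.Agent.L7h73.KN.Core
import Pool.Agent.L7h74.KN.Add
import Pool.Agent.L7h76.KN.Cyd
import Pool.Agent.L7h77.KN.Tig
import Pool.Agent.L7h8.KN.Rep
import Pool.Agent.L7h82.KN.Gen
import Pool.Agent.L7h96.KN.Sep

set_option autoImplicit false

namespace Pool.Agent.L7h31.KN

theorem core_ok : S_CORE :=
  Pool.Agent.L7h73.KN.s_CORE Pool.Agent.L7h74.KN.s_ADD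
    (Pool.Agent.L7h76.KN.s_CYD Pool.Agent.L7h74.KN.s_ADD) Pool.Agent.L7h70.KN.s_CNT
    Pool.Agent.L7h7.KN.s_MW

theorem final_ok : S_MAIN :=
  s_MAIN core_ok Pool.Agent.L7h70.KN.s_NRM Pool.Agent.L7h70.KN.s_BEY
    (Pool.Agent.L7h70.KN.s_OPP Pool.Agent.L7h96.KN.s_SEP Pool.Agent.L7h77.KN.s_TIG)
    Pool.Agent.L7h82.KN.s_GEN Pool.Agent.L7h8.KN.s_REP

end Pool.Agent.L7h31.KN
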