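import Pool.Agent.L7h31.KN.Stm

set_option autoImplicit false

namespace Pool.Agent.L7h31.KN

open scoped BigOperators Topology RealInnerProductSpace

theorem s_MAIN (hC : S_CORE) (hN : S_NRM) (hB : S_BEY) (hO : S_OPP) (hG : S_GEN) (hR : S_REP) :
    S_MAIN := by
  intro d k hd F hF hNb
  classical
  rcases F.eq_empty_or_nonempty with hFe | hne
  · rw [hFe]; simp
  have h1 : ∀ P : F, ∃ (a : Fin k → E d) (b : Fin k → ℝ), (∀ i, ‖a i‖ = 1) ∧
      (P : Set (E d)) = {x | ∀ i, ⟪a i, x⟫ ≤ b i} := fun P => hN d k P (hF P P.2)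
  choose a b ha hP using h1
  have hbd : ∀ P : F, Bornology.IsBounded {x : E d | ∀ i, ⟪a P i, x⟫ ≤ b P i} := fun P => by
    rw [← hP P]; exact (hF P P.2).bounded
  have hint : ∀ P : F, (interior {x : E d | ∀ i, ⟪a P i, x⟫ ≤ b P i}).Nonempty := fun P => by
    rw [← hP P]; exact (hF P P.2).interior
  have hbey : ∀ (P : F) (x : E d), ∃ i, ⟪a P i, x⟫ < b P i := fun P =>
    hB d k (a P) (b P) hd (hbd P) (hint P)
  obtain ⟨P0, hP0⟩ := hne
  have hk : 1 ≤ k := by
    obtain ⟨i, _⟩ := hbey ⟨P0, hP0⟩ 0
    have := i.2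
    omega
  obtain ⟨ι, iF, iD, h, φ, s, hg, hsurj, hinj⟩ :=
    hR (E d × ℝ) (F × Fin k) (fun j => (a j.1 j.2, b j.1 j.2))
  have ha0 : ∀ (P : F) (l : Fin k), a P l ≠ - a P l := by
    intro P l he
    have h3 : (⟪a P l, a P l⟫ : ℝ) = ⟪a P l, - a P l⟫ := by rw [← he]
    rw [inner_neg_right, real_inner_self_eq_norm_sq, ha P l] at h3
    norm_num at h3
  have hthin : ∀ (P : F) (l l' : Fin k), a P l' = - a P l → b P l' = - b P l → False := by
    intro P l l' e1 e2
    obtain ⟨z, hz⟩ := hint P
    obtain ⟨ε, hε, hball⟩ := Metric.isOpen_iff.1 isOpen_interior z hz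
    have hx : z + (ε / 2) • a P l ∈ {x : E d | ∀ i, ⟪a P i, x⟫ ≤ b P i} := by
      apply interior_subset
      apply hball
      rw [Metric.mem_ball, dist_eq_norm, add_sub_cancel_left, norm_smul, ha P l,
        Real.norm_of_nonneg (by linarith)]
      linarith
    have h2 := hx l
    have h3 := (interior_subset hz : z ∈ {x : E d | ∀ i, ⟪a P i, x⟫ ≤ b P i}) l'
    rw [e1, e2, inner_neg_left] at h3
    rw [inner_add_right, inner_smul_right, real_inner_self_eq_norm_sq, ha P l] at h2
    linarith
  -- words
  let A : F → Finset ι := fun P => Finset.univ.image fun l => φ (P, l)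
  let s' : F → ι → Bool := fun P i => decide (∃ l, φ (P, l) = i ∧ s (P, l) = true)
  have hs' : ∀ (P : F) (l : Fin k), s' P (φ (P, l)) = s (P, l) := by
    intro P l
    cases hsl : s (P, l) with
    | true => exact decide_eq_true ⟨l, rfl, hsl⟩
    | false =>
      apply decide_eq_false
      rintro ⟨l', e1, e2⟩
      have g1 := hg (P, l)
      have g2 := hg (P, l')
      rw [hsl] at g1
      rw [e2, e1] at g2
      simp only [Bool.false_eq_true, if_false, if_true] at g1 g2
      rw [← g2] at g1
      have g3 := Prod.ext_iff.1 g1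
      simp only [Prod.fst_neg, Prod.snd_neg] at g3
      exact hthin P l' l g3.1 g3.2
  let yv : E d → ι → Bool := fun x i => decide ((h i).2 < ⟪(h i).1, x⟫)
  have hU : ∀ (x : E d) (P : F), yv x ∉ cyl (A P) (s' P) := by
    intro x P hmem
    have h2 : ∀ l, yv x (φ (P, l)) = s (P, l) := by
      intro l
      rw [← hs' P l]
      exact (Finset.mem_filter.1 hmem).2 _ (Finset.mem_image_of_mem _ (Finset.mem_univ l))
    obtain ⟨l, hl⟩ := hbey P x
    have h3 := h2 l
    have g1 := hg (P, l)
    cases hsl : s (P, l) with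
    | true =>
      rw [hsl] at g1 h3
      simp only [if_true] at g1
      have h4 := of_decide_eq_true h3
      rw [← g1] at h4
      exact absurd h4 (not_lt.2 hl.le)
    | false =>
      rw [hsl] at g1 h3
      simp only [Bool.false_eq_true, if_false] at g1
      have h4 := of_decide_eq_false h3
      have g2 : h (φ (P, l)) = - (a P l, b P l) := by rw [g1, neg_neg]
      rw [g2] at h4
      simp only [Prod.fst_neg, Prod.snd_neg, inner_neg_left] at h4
      apply h4
      linarith
  have hnorm : ∀ i, ‖(h i).1‖ = 1 := by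
    intro i
    obtain ⟨⟨P, l⟩, rfl⟩ := hsurj i
    have g1 := hg (P, l)
    cases hsl : s (P, l) with
    | true =>
      rw [hsl] at g1
      simp only [if_true] at g1
      rw [← g1]
      exact ha P l
    | false =>
      rw [hsl] at g1
      simp only [Bool.false_eq_true, if_false] at g1
      have g2 : h (φ (P, l)) = - (a P l, b P l) := by rw [g1, neg_neg]
      rw [g2]
      simp only [Prod.fst_neg, norm_neg]
      exact ha P l
  have : Nonempty F := ⟨⟨P0, hP0⟩⟩
  have key := hC ι F k A s' hk (fun P => by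
      refine Finset.card_image_le.trans ?_
      simp) ?_ ⟨yv 0, hU 0⟩ ?_
  · rw [Fintype.card_coe] at key
    omega
  · intro P Q hPQ
    have hne : (P : Set (E d)) ≠ Q := fun h => hPQ (Subtype.ext h)
    obtain ⟨hdis, v, hv, hvm⟩ := hNb P P.2 Q Q.2 hne
    obtain ⟨l, l', e1, e2⟩ := hO d k (a P) (a Q) (b P) (b Q) hd (ha P) (ha Q) (hint P) (hint Q)
      (by rw [← hP P, ← hP Q]; exact hdis)
      ⟨v, hv, fun l => by
        have h2 := hvm l
        rw [hP P, hP Q] at h2
        exact h2⟩
    have gP := hg (P, l)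
    have gQ := hg (Q, l')
    simp only at gP gQ
    have hneg : ((a Q l', b Q l') : E d × ℝ) = - (a P l, b P l) := by
      rw [e1, e2]; rfl
    rw [hneg] at gQ
    have hself : ((a P l, b P l) : E d × ℝ) ≠ - (a P l, b P l) := fun h =>
      ha0 P l (by simpa using (Prod.ext_iff.1 h).1)
    have fin : φ (P, l) = φ (Q, l') → s (P, l) ≠ s (Q, l') →
        ∃ i ∈ A P, i ∈ A Q ∧ s' P i ≠ s' Q i := by
      intro f1 f2
      refine ⟨φ (P, l), Finset.mem_image_of_mem _ (Finset.mem_univ l), ?_, ?_⟩
      · rw [f1]
        exact Finset.mem_image_of_mem _ (Finset.mem_univ l')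
      · rw [hs' P l, f1, hs' Q l']
        exact f2
    cases hs1 : s (P, l) with
    | true =>
      cases hs2 : s (Q, l') with
      | true =>
        exfalso
        rw [hs1] at gP
        rw [hs2] at gQ
        simp only [if_true] at gP gQ
        have e : φ (P, l) = φ (Q, l') := hinj _ _ (Or.inr (by rw [← gP, ← gQ, neg_neg]))
        rw [← e, ← gP] at gQ
        exact hself gQ.symm
      | false =>
        rw [hs1] at gP
        rw [hs2] at gQ
        simp only [Bool.false_eq_true, if_false, if_true] at gP gQ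
        refine fin (hinj _ _ (Or.inl ?_)) (by rw [hs1, hs2]; simp)
        rw [← gP]
        exact neg_injective gQ
    | false =>
      cases hs2 : s (Q, l') with
      | true =>
        rw [hs1] at gP
        rw [hs2] at gQ
        simp only [Bool.false_eq_true, if_false, if_true] at gP gQ
        refine fin (hinj _ _ (Or.inl ?_)) (by rw [hs1, hs2]; simp)
        rw [← gQ, gP, neg_neg]
      | false =>
        exfalso
        rw [hs1] at gP
        rw [hs2] at gQ
        simp only [Bool.false_eq_true, if_false] at gP gQ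
        have g2 : ((a P l, b P l) : E d × ℝ) = h (φ (Q, l')) := neg_injective gQ
        have e : φ (P, l) = φ (Q, l') := hinj _ _ (Or.inr (by rw [← g2, gP, neg_neg]))
        rw [← e] at g2
        apply hself
        rw [← g2] at gP
        exact gP
  · intro j
    obtain ⟨x, x', hx1, hx2, hx3⟩ := hG d ι (fun i => (h i).1) (fun i => (h i).2) hnorm
      (fun i i' hii => ⟨fun he => hii (hinj _ _ (Or.inl (Prod.ext_iff.2 (Prod.ext_iff.1 he)))),
        fun he => hii (hinj _ _ (Or.inr (Prod.ext_iff.2 (Prod.ext_iff.1 he))))⟩) j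
    refine ⟨yv x, hU x, ?_⟩
    have hfl : flip j (yv x) = yv x' := by
      funext i
      unfold flip
      by_cases hij : i = j
      · subst hij
        rw [Function.update_self]
        have e1 : yv x i = false := decide_eq_false hx2
        have e2 : yv x' i = true := decide_eq_true hx3
        rw [e1, e2]
        rfl
      · rw [Function.update_of_ne hij]
        exact decide_eq_decide.2 (hx1 i hij)
    rw [hfl]
    exact hU x'

end Pool.Agent.L7h31.KN
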