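import Mathlib

/-!
# Project KN (MP_df26cd_co): neighborly families of polytopes with at most `k` facets have at most
`2^k - 2` members; so `N_cube ≤ 62` (known: `24 ≤ N_cube ≤ 64`)

PROOF. Every polytope of the family is given by `k` half-spaces. Let `ι` be the set of the planes of all
facets. To a vector `y` in the cube `ι → Bool` (a side of every plane) corresponds the set of the members all
whose half-spaces are the chosen ones; since any two members are on different sides of a common plane, it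
has at most one element. So the member `P` gives a subcube `cyl P` of codimension at most `k`, the subcubes
are disjoint, and `U` is the rest. If there are `2^k - 1` members, then `|U| ≤ 2^(N-k)`. The indicator
function `f` of `U` is, modulo two, a polynomial of degree at most `k`. For a point `x` the vector which has
for every plane the side that does not contain `x` is in `U`, since the members are bounded. When `x`
crosses the plane `j` we see that `U` contains `y` and `flip j y`. Hence the support of the derivative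
`D j f` (degree `≤ k - 1`) has less than `2 |U| ≤ 2^(N-k+1)` elements, so `D j f = 0` by the minimum
distance of the Reed-Muller code. This holds for all `j`, so `U` is everything, contradiction.
-/

set_option autoImplicit false

namespace Pool.Agent.L7h31.KN

open scoped BigOperators Topology RealInnerProductSpace

/-! ### definitions -/

/-- `ℝ^d` -/
abbrev E (d : ℕ) := EuclideanSpace ℝ (Fin d)

/-- `P` is a `d`-polytope (bounded, with interior points) which is the intersection of `k` closed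
half-spaces (repetitions allowed) -/
structure IsPoly {d : ℕ} (k : ℕ) (P : Set (E d)) : Prop where
  bounded : Bornology.IsBounded P
  interior : (interior P).Nonempty
  inter : ∃ (a : Fin k → E d) (b : Fin k → ℝ), (∀ i, a i ≠ 0) ∧ P = {x | ∀ i, ⟪a i, x⟫ ≤ b i}

/-- disjoint interiors, and the intersection of any two contains `d` affinely independent points -/
def Neighborly {d : ℕ} (F : Set (Set (E d))) : Prop :=
  ∀ P ∈ F, ∀ Q ∈ F, P ≠ Q → Disjoint (interior P) (interior Q) ∧
    ∃ v : Fin d → E d, AffineIndependent ℝ v ∧ ∀ i, v i ∈ P ∩ Q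

/-! ### functions on the cube -/

section cube

variable {ι : Type} [Fintype ι] [DecidableEq ι]

/-- change the coordinate `j` -/
def flip (j : ι) (y : ι → Bool) : ι → Bool := Function.update y j (!(y j))

/-- derivative -/
def D (j : ι) (f : (ι → Bool) → ZMod 2) : (ι → Bool) → ZMod 2 := fun y => f y + f (flip j y)

/-- degree at most `k` -/
def Deg : ℕ → ((ι → Bool) → ZMod 2) → Prop
  | 0, f => ∀ j, D j f = 0
  | k + 1, f => ∀ j, Deg k (D j f)

/-- subcube -/
def cyl (A : Finset ι) (s : ι → Bool) : Finset (ι → Bool) :=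
  Finset.univ.filter fun y => ∀ i ∈ A, y i = s i

/-- indicator function -/
def ind (S : Finset (ι → Bool)) : (ι → Bool) → ZMod 2 := fun y => if y ∈ S then 1 else 0

end cube

/-- [ADD] 20 lines, induction on `k` (`D j` is additive). -/
def S_ADD : Prop := ∀ (ι : Type) [Fintype ι] [DecidableEq ι] (k : ℕ) (f g : (ι → Bool) → ZMod 2),
  (Deg k f → Deg k g → Deg k (f + g)) ∧ Deg k (0 : (ι → Bool) → ZMod 2) ∧ (Deg k f → Deg (k + 1) f)

/-- [CYD] 40 lines, from `S_ADD`. `D j (ind (cyl A s))` is `ind (cyl (A.erase j) s)` if `j ∈ A`, otherwise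
`0`. Induction on `k` for all `A`; if `A = ∅` the function is `1`. -/
def S_CYD : Prop := ∀ (ι : Type) [Fintype ι] [DecidableEq ι] (k : ℕ) (A : Finset ι) (s : ι → Bool),
  A.card ≤ k → Deg k (ind (cyl A s))

/-- [CNT] 30 lines: the subcube is `Fintype.piFinset (fun i => if i ∈ A then {s i} else univ)`. -/
def S_CNT : Prop := ∀ (ι : Type) [Fintype ι] [DecidableEq ι] (k : ℕ) (A : Finset ι) (s : ι → Bool),
  A.card ≤ k → 2 ^ Fintype.card ι ≤ (cyl A s).card * 2 ^ k

/-- [MW] 50 lines. Minimum distance of the Reed-Muller code, induction on `k`: if all `D j f = 0` then `f` is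
invariant under all `flip j`, so it is constant, and nonzero, so the support is everything. Otherwise
`D j f ≠ 0` for some `j`, and the support of `D j f` is contained in the union of the support of `f` and its
image under `flip j`. -/
def S_MW : Prop := ∀ (ι : Type) [Fintype ι] [DecidableEq ι] (k : ℕ) (f : (ι → Bool) → ZMod 2),
  Deg k f → f ≠ 0 → 2 ^ Fintype.card ι ≤ (Finset.univ.filter fun y => f y ≠ 0).card * 2 ^ k

/-- [CORE] 100 lines, from `S_ADD`, `S_CYD`, `S_CNT`, `S_MW`. Suppose `2 ^ k ≤ card α + 1`. The sets `cyl (A P)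
(s P)` are disjoint and `U` (the vectors in none of them) is the complement of the union, so
`|U| * 2 ^ k ≤ 2 ^ N` by `S_CNT`, and `ind U = 1 + ∑ P, ind (cyl ..)` has degree `≤ k`. For every `j` the
support of `D j (ind U)` consists of the `y` with exactly one of `y`, `flip j y` in `U`; there are at most
`2 |U| - 2` of them (there is `y ∈ U` with `flip j y ∈ U`), so `D j (ind U) = 0` by `S_MW` for `k - 1`. So `U` is
invariant under all `flip j`, it is not empty, so it is everything, but `s P ∉ U`. -/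
def S_CORE : Prop := ∀ (ι : Type) [Fintype ι] [DecidableEq ι] (α : Type) [Fintype α] [Nonempty α]
  (k : ℕ) (A : α → Finset ι) (s : α → ι → Bool), 1 ≤ k → (∀ P, (A P).card ≤ k) →
  (∀ P Q, P ≠ Q → ∃ i ∈ A P, i ∈ A Q ∧ s P i ≠ s Q i) →
  (∃ y : ι → Bool, ∀ P, y ∉ cyl (A P) (s P)) →
  (∀ j, ∃ y : ι → Bool, (∀ P, y ∉ cyl (A P) (s P)) ∧ ∀ P, flip j y ∉ cyl (A P) (s P)) →
  Fintype.card α + 2 ≤ 2 ^ k

/-! ### geometry -/

/-- [NRM] 15 lines: divide by the norms. -/
def S_NRM : Prop := ∀ (d k : ℕ) (P : Set (E d)), IsPoly k P →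
  ∃ (a : Fin k → E d) (b : Fin k → ℝ), (∀ i, ‖a i‖ = 1) ∧ P = {x | ∀ i, ⟪a i, x⟫ ≤ b i}

/-- [BEY] 40 lines. Suppose `b i ≤ ⟪a i, x⟫` for all `i`; take `p ∈ P`, `p ≠ x` (`P` has interior points and
`1 ≤ d`); then `p + t • (p - x) ∈ P` for all `t ≥ 0`, but `P` is bounded. -/
def S_BEY : Prop := ∀ (d k : ℕ) (a : Fin k → E d) (b : Fin k → ℝ), 1 ≤ d →
  Bornology.IsBounded {x : E d | ∀ i, ⟪a i, x⟫ ≤ b i} →
  (interior {x : E d | ∀ i, ⟪a i, x⟫ ≤ b i}).Nonempty → ∀ x : E d, ∃ i, ⟪a i, x⟫ < b i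

/-- [SEP] 40 lines: separation of the interiors (`geometric_hahn_banach_open_open` or similar), and a convex
set with interior points is contained in the closure of its interior. -/
def S_SEP : Prop := ∀ (d : ℕ) (P Q : Set (E d)), Convex ℝ P → Convex ℝ Q → (interior P).Nonempty →
  (interior Q).Nonempty → Disjoint (interior P) (interior Q) →
  ∃ (c : E d) (t : ℝ), c ≠ 0 ∧ (∀ x ∈ P, ⟪c, x⟫ ≤ t) ∧ ∀ x ∈ Q, t ≤ ⟪c, x⟫

/-- [TIG] 90 lines. `P = {x | ∀ i, ⟪a i, x⟫ ≤ b i}` is on one side of the hyperplane `⟪c, x⟫ = t` and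
contains `d` affinely independent points `v` of it. Then one of the half-spaces is bounded by this hyperplane:
let `z` be the centroid of the `v i`; `z ∈ P`, `⟪c, z⟫ = t`; some inequality is an equality at `z` (otherwise
`z + ε • c ∈ P`); then `⟪a i, v l⟫ = b i` for all `l` (all are `≤ b i` and the average is `b i`). So `a i` and
`c` are orthogonal to all `v l - v 0`, which span a subspace of dimension `d - 1`, so `a i = r • c`, and
`r > 0`: the interior point `p` of `P` has `⟪a i, p⟫ < b i`, `⟪c, p⟫ < t`. -/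
def S_TIG : Prop := ∀ (d k : ℕ) (a : Fin k → E d) (b : Fin k → ℝ) (c : E d) (t : ℝ)
  (v : Fin d → E d), 1 ≤ d → (∀ i, ‖a i‖ = 1) → c ≠ 0 →
  (interior {x : E d | ∀ i, ⟪a i, x⟫ ≤ b i}).Nonempty →
  (∀ x : E d, (∀ i, ⟪a i, x⟫ ≤ b i) → ⟪c, x⟫ ≤ t) → AffineIndependent ℝ v →
  (∀ l, (∀ i, ⟪a i, v l⟫ ≤ b i) ∧ ⟪c, v l⟫ = t) →
  ∃ i, a i = (1 / ‖c‖) • c ∧ b i = t / ‖c‖

/-- [OPP] 40 lines, from `S_SEP`, `S_TIG` (for `Q` with `-c`, `-t`). -/
def S_OPP : Prop := ∀ (d k : ℕ) (a a' : Fin k → E d) (b b' : Fin k → ℝ), 1 ≤ d →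
  (∀ i, ‖a i‖ = 1) → (∀ i, ‖a' i‖ = 1) →
  (interior {x : E d | ∀ i, ⟪a i, x⟫ ≤ b i}).Nonempty →
  (interior {x : E d | ∀ i, ⟪a' i, x⟫ ≤ b' i}).Nonempty →
  Disjoint (interior {x : E d | ∀ i, ⟪a i, x⟫ ≤ b i})
    (interior {x : E d | ∀ i, ⟪a' i, x⟫ ≤ b' i}) →
  (∃ v : Fin d → E d, AffineIndependent ℝ v ∧ ∀ l, (∀ i, ⟪a i, v l⟫ ≤ b i) ∧
    ∀ i, ⟪a' i, v l⟫ ≤ b' i) →
  ∃ i i', a' i' = - a i ∧ b' i' = - b i

/-- [GEN] 90 lines. First `x` with `⟪c j, x⟫ = e j` and `⟪c i, x⟫ ≠ e i` for all `i ≠ j`: let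
`z = e j • c j`; if `c i` is `± c j` then the equation `⟪c i, x⟫ = e i` has no solution with `⟪c j, x⟫ = e j`; the
other `c i` are not in `ℝ c j`, so their orthogonal projections `w i = c i - ⟪c i, c j⟫ • c j` are not zero, there
is `u` with `⟪w i, u⟫ ≠ 0` for all these `i` (finitely many proper subspaces do not cover), and
`x = z + r • (u - ⟪u, c j⟫ • c j)` for all but finitely many `r`. Then `x' = x + ε • c j`, `ε > 0` small. -/
def S_GEN : Prop := ∀ (d : ℕ) (ι : Type) [Fintype ι] [DecidableEq ι] (c : ι → E d) (e : ι → ℝ),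
  (∀ i, ‖c i‖ = 1) → (∀ i j, i ≠ j → (c i, e i) ≠ (c j, e j) ∧ (c i, e i) ≠ (- c j, - e j)) →
  ∀ j, ∃ x x' : E d, (∀ i, i ≠ j → (e i < ⟪c i, x⟫ ↔ e i < ⟪c i, x'⟫)) ∧
    ¬ e j < ⟪c j, x⟫ ∧ e j < ⟪c j, x'⟫

/-- [REP] 40 lines: `ι` is the set of the classes of the `g j` for the relation `v = v' ∨ v = - v'`, `h` a
choice of representatives. -/
def S_REP : Prop := ∀ (V J : Type) [AddCommGroup V] [Fintype J] (g : J → V),
  ∃ (ι : Type) (_ : Fintype ι) (_ : DecidableEq ι) (h : ι → V) (φ : J → ι) (s : J → Bool),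
    (∀ j, g j = if s j then h (φ j) else - h (φ j)) ∧
    ((∀ i, ∃ j, φ j = i) ∧ ∀ i i', (h i = h i' ∨ h i = - h i') → i = i')

/-- [MAIN] 120 lines, from `S_CORE`, `S_NRM`, `S_BEY`, `S_OPP`, `S_GEN`, `S_REP` (see the head of the file).
`J = F × Fin k`, `g (P, l) = (a P l, b P l)` in `V = E d × ℝ`; `α = F`; `A P` is the image of `φ (P, ·)`;
`s' P i = true` iff `s (P, l) = true` for some `l` with `φ (P, l) = i`; then `s' P (φ (P, l)) = s (P, l)` since
otherwise `P` is contained in a hyperplane. For `x` the vector `y i = decide ((h i).2 < ⟪(h i).1, x⟫)` is in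
no `cyl` by `S_BEY`. Two members: `S_OPP`. `1 ≤ k`: `S_BEY` gives an element of `Fin k`. If `F = ∅` there is
nothing to prove. -/
def S_MAIN : Prop := ∀ (d k : ℕ), 1 ≤ d → ∀ F : Finset (Set (E d)), (∀ P ∈ F, IsPoly k P) →
  Neighborly (F : Set (Set (E d))) → F.card ≤ 2 ^ k - 2

end Pool.Agent.L7h31.KN
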